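import Pool.Agent.helper62.MS.SpecG

open scoped MatrixGroups ContDiff Topology UpperHalfPlane ComplexConjugate
open UpperHalfPlane MeasureTheory Filter Set

namespace Pool.Agent.MS

open Pool.Agent.RS

lemma BXU_aM : aM 0 = 1 := by
  ext i j
  fin_cases i <;> fin_cases j <;> simp [aM]

lemma BXU_nM : nM 0 = 1 := by
  ext i j
  fin_cases i <;> fin_cases j <;> simp [nM]

lemma BXU_lM : lM 0 = 1 := by
  ext i j
  fin_cases i <;> fin_cases j <;> simp [lM]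

lemma BXU_der {f h : ℝ → ℝ} {f' h' : ℝ} (hf : HasDerivAt f f' 0) (hh : HasDerivAt h h' 0) :
    HasDerivAt (fun t => 1 - (1 - f t) * (1 - h t)) (f' * (1 - h 0) + (1 - f 0) * h') 0 := by
  have h1 : HasDerivAt (fun t => 1 - f t) (-f') 0 := by
    have := (hasDerivAt_const (0 : ℝ) (1 : ℝ)).sub hf
    rwa [zero_sub] at this
  have h2 : HasDerivAt (fun t => 1 - h t) (-h') 0 := by
    have := (hasDerivAt_const (0 : ℝ) (1 : ℝ)).sub hh
    rwa [zero_sub] at this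
  have h3 := (hasDerivAt_const (0 : ℝ) (1 : ℝ)).sub (h1.mul h2)
  have h4 : (0 : ℝ) - (-f' * (1 - h 0) + (1 - f 0) * -h') = f' * (1 - h 0) + (1 - f 0) * h' := by ring
  rw [h4] at h3
  exact h3

lemma BXU_bd {s t u v B1 B2 : ℝ} (hs : 0 ≤ s ∧ s ≤ 1) (ht : 0 ≤ t ∧ t ≤ 1) (hu : |u| ≤ B1) (hv : |v| ≤ B2) :
    |u * (1 - t) + (1 - s) * v| ≤ B1 + B2 := by
  have h1 : |u * (1 - t)| ≤ |u| := by
    rw [abs_mul]
    have : |1 - t| ≤ 1 := abs_le.2 ⟨by linarith [ht.2], by linarith [ht.1]⟩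
    nlinarith [abs_nonneg u]
  have h2 : |(1 - s) * v| ≤ |v| := by
    rw [abs_mul]
    have : |1 - s| ≤ 1 := abs_le.2 ⟨by linarith [hs.2], by linarith [hs.1]⟩
    nlinarith [abs_nonneg v]
  calc |u * (1 - t) + (1 - s) * v| ≤ |u * (1 - t)| + |(1 - s) * v| := abs_add_le _ _
    _ ≤ B1 + B2 := by linarith

theorem BXU_proof (h1 : BXF_stmt) : BXU_stmt := by
  classical
  intro Γ hΓ
  obtain ⟨a0, ha0, ha1, h2⟩ := h1 Γ hΓ
  refine ⟨a0, ha0, ha1, fun a ha haa => ?_⟩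
  obtain ⟨C, hC, h3⟩ := h2 a ha haa
  refine ⟨C, hC, fun n A hn => ?_⟩
  induction A using Finset.induction_on with
  | empty =>
    have hinv : InvG Γ (fun _ : SL(2, ℝ) => (0 : ℝ)) := ⟨continuous_const, fun _ _ => rfl⟩
    refine ⟨fun _ => 0, fun _ => 0, fun _ => 0, fun _ => 0, ⟨hinv, hinv, hinv, hinv, fun g => hasDerivAt_const _ _,
      fun g => hasDerivAt_const _ _, fun g => hasDerivAt_const _ _⟩, fun g => ⟨le_rfl, zero_le_one⟩, fun g => ?_, fun g => ?_,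
      fun g hg => ?_, fun g hg => absurd rfl hg⟩
    · simp
    · simp
    · obtain ⟨y, hy, -⟩ := hg
      exact absurd hy (Finset.notMem_empty y)
  | insert y A hyA ih =>
    obtain ⟨Ψ, Ψa, Ψn, Ψl, hS, h01, hBn, hBl, hcov, hsup⟩ := ih
    obtain ⟨Φ, Φa, Φn, Φl, kS, k01, kBn, kBl, kcov, ksup⟩ := h3 n y hn
    have hinv : ∀ {u v : SL(2, ℝ) → ℝ}, InvG Γ u → InvG Γ v →
        InvG Γ (fun g => u g * (1 - Φ g) + (1 - Ψ g) * v g) := by
      intro u v hu hv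
      refine ⟨(hu.1.mul (continuous_const.sub kS.i0.1)).add ((continuous_const.sub hS.i0.1).mul hv.1), fun γ g => ?_⟩
      simp only [hu.2 γ g, hv.2 γ g, kS.i0.2 γ g, hS.i0.2 γ g]
    have hcard : ((insert y A).card : ℝ) = A.card + 1 := by
      rw [Finset.card_insert_of_notMem hyA]; push_cast; ring
    refine ⟨fun g => 1 - (1 - Ψ g) * (1 - Φ g), fun g => Ψa g * (1 - Φ g) + (1 - Ψ g) * Φa g,
      fun g => Ψn g * (1 - Φ g) + (1 - Ψ g) * Φn g, fun g => Ψl g * (1 - Φ g) + (1 - Ψ g) * Φl g,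
      ⟨?_, hinv hS.ia kS.ia, hinv hS.i1 kS.i1, hinv hS.il kS.il, fun g => ?_, fun g => ?_, fun g => ?_⟩,
      fun g => ?_, fun g => ?_, fun g => ?_, fun g hg => ?_, fun g hg => ?_⟩
    · refine ⟨continuous_const.sub ((continuous_const.sub hS.i0.1).mul (continuous_const.sub kS.i0.1)), fun γ g => ?_⟩
      simp only [kS.i0.2 γ g, hS.i0.2 γ g]
    · have h4 := BXU_der (hS.da g) (kS.da g)
      rw [BXU_aM, mul_one] at h4
      exact h4
    · have h4 := BXU_der (hS.dn g) (kS.dn g)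
      rw [BXU_nM, mul_one] at h4
      exact h4
    · have h4 := BXU_der (hS.dl g) (kS.dl g)
      rw [BXU_lM, mul_one] at h4
      exact h4
    · have a1 := h01 g
      have a2 := k01 g
      constructor
      · nlinarith [a1.1, a1.2, a2.1, a2.2, mul_nonneg a1.1 (sub_nonneg.2 a2.2)]
      · nlinarith [mul_nonneg (sub_nonneg.2 a1.2) (sub_nonneg.2 a2.2)]
    · refine (BXU_bd (h01 g) (k01 g) (hBn g) (kBn g)).trans (le_of_eq ?_)
      rw [hcard]; ring
    · refine (BXU_bd (h01 g) (k01 g) (hBl g) (kBl g)).trans (le_of_eq ?_)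
      rw [hcard]; ring
    · obtain ⟨y', hy', γ, hγ⟩ := hg
      rcases Finset.mem_insert.1 hy' with rfl | hA
      · show 1 - (1 - Ψ g) * (1 - Φ g) = 1
        rw [kcov g ⟨γ, hγ⟩]; ring
      · show 1 - (1 - Ψ g) * (1 - Φ g) = 1
        rw [hcov g ⟨y', hA, γ, hγ⟩]; ring
    · by_cases hΨ : Ψ g = 0
      · by_cases hΦ : Φ g = 0
        · have h5 : 1 - (1 - Ψ g) * (1 - Φ g) = 0 := by rw [hΨ, hΦ]; ring
          exact absurd h5 hg
        · obtain ⟨γ, hγ⟩ := ksup g hΦ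
          exact ⟨y, Finset.mem_insert_self _ _, γ, hγ⟩
      · obtain ⟨y', hA, γ, hγ⟩ := hsup g hΨ
        exact ⟨y', Finset.mem_insert_of_mem hA, γ, hγ⟩

end Pool.Agent.MS
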