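import Pool.Agent.helper57.MS.Spec2

set_option autoImplicit false

open Finset

namespace Pool.Agent.helper57.MS

open Pool.Agent.RRank Pool.Agent.helper26.IM

theorem TH5 (hQFI : QFI_stmt) (hRDC : RDC_stmt) : TH5_stmt := by
  intro d hd 𝓚 R h
  classical
  haveI : Finite (IndexPartition d) := by
    have : Function.Injective (fun P : IndexPartition d => P.parts) := by
      intro P P' hPP
      exact Finpartition.ext hPP
    exact Finite.of_injective _ this
  refine hQFI d hd 𝓚 {f : IndexPartition d → Finset (Fin d) // ∀ P' ∈ R, f P' ∈ P'.parts}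
    (fun f => Rf R f.1) R (fun f => h f.1 f.2) ?_
  intro P
  rw [hRDC d hd R P]
  constructor
  · intro hP f
    exact hP f.1 f.2
  · intro hP f hf
    exact hP ⟨f, hf⟩

end Pool.Agent.helper57.MS
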